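import Mathlib

/-!
# Absolutely irreducible polynomials remain irreducible over all extensions of the ground field
-/

set_option autoImplicit false
set_option linter.all false

open Polynomial

namespace Pool.Agent.Helper86.Thin.ABS

/-- An element of `M'` which is integral over `κ` lies in the image of the algebraic closure `k'`. -/
theorem mem_range {κ k' M' : Type} [Field κ] [CharZero κ] [Field k'] [Algebra κ k']
    [IsSepClosure κ k'] [Field M'] [Algebra κ M'] (j : k' →ₐ[κ] M') (x : M')
    (hx : IsIntegral κ x) : x ∈ Set.range (j : k' →+* M') := by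
  haveI : IsAlgClosure κ k' := inferInstance
  haveI : IsAlgClosed k' := IsAlgClosure.isAlgClosed κ
  have hs : ((minpoly κ x).map (algebraMap κ k')).Splits := IsAlgClosed.splits _
  have hne : ((minpoly κ x).map (algebraMap κ k')) ≠ 0 :=
    Polynomial.map_ne_zero (minpoly.ne_zero hx)
  have hr : (((minpoly κ x).map (algebraMap κ k')).map (j : k' →+* M')).IsRoot x := by
    rw [Polynomial.map_map, j.comp_algebraMap, IsRoot.def, eval_map_algebraMap, minpoly.aeval]
  have := hs.roots_map (j : k' →+* M')
  have hx' : x ∈ (((minpoly κ x).map (algebraMap κ k')).map (j : k' →+* M')).roots := by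
    rw [mem_roots (Polynomial.map_ne_zero hne)]
    exact hr
  rw [this, Multiset.mem_map] at hx'
  obtain ⟨y, _, hy⟩ := hx'
  exact ⟨y, hy⟩

attribute [local instance] Polynomial.algebra in
/-- A monic divisor of `g` over `M'` comes from `k'`. -/
theorem descend {κ k' M' : Type} [Field κ] [CharZero κ] [Field k'] [Algebra κ k']
    [IsSepClosure κ k'] [Field M'] [Algebra κ M'] (j : k' →ₐ[κ] M') (g : κ[X][X]) (hg : g.Monic)
    (u : M'[X][X]) (hu : u.Monic) (hd : u ∣ g.map (mapRingHom (algebraMap κ M'))) :
    ∃ u₀ : k'[X][X], u₀.map (mapRingHom (j : k' →+* M')) = u := by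
  rw [← mem_lifts, lifts_iff_coeff_lifts]
  intro n
  have h1 : IsIntegral κ[X] (u.coeff n) := isIntegral_coeff_of_dvd g u hg hu hd n
  rw [Polynomial.isIntegral_iff_isIntegral_coeff] at h1
  have h2 : u.coeff n ∈ lifts (j : k' →+* M') := by
    rw [lifts_iff_coeff_lifts]
    intro m
    exact mem_range j _ (h1 m)
  rw [mem_lifts] at h2
  obtain ⟨q, hq⟩ := h2
  exact ⟨q, by simpa using hq⟩

theorem core (κ k' M : Type) [Field κ] [CharZero κ] [Field k'] [Algebra κ k']
    [IsSepClosure κ k'] [Field M] [Algebra κ M] (g : κ[X][X]) (hg : g.Monic)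
    (h : Irreducible ((g.map (mapRingHom (algebraMap κ k'))).map
      (algebraMap k'[X] (FractionRing k'[X])))) :
    Irreducible ((g.map (mapRingHom (algebraMap κ M))).map
      (algebraMap M[X] (FractionRing M[X]))) := by
  have hg1 : (g.map (mapRingHom (algebraMap κ k'))).Monic := hg.map _
  have hg2 : (g.map (mapRingHom (algebraMap κ M))).Monic := hg.map _
  rw [← hg1.irreducible_iff_irreducible_map_fraction_map] at h
  rw [← hg2.irreducible_iff_irreducible_map_fraction_map]
  haveI : IsAlgClosure κ k' := inferInstance
  haveI : Algebra.IsAlgebraic κ k' := IsAlgClosure.isAlgebraic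
  set M' := AlgebraicClosure M with hM'
  let j : k' →ₐ[κ] M' := IsAlgClosed.lift
  have hj : Function.Injective (j : k' →+* M') := (j : k' →+* M').injective
  have hjj : Function.Injective (mapRingHom (j : k' →+* M')) := map_injective _ hj
  have hMM : Function.Injective (mapRingHom (algebraMap M M')) :=
    map_injective _ (algebraMap M M').injective
  -- the degree of `g` is positive
  have hne : g.map (mapRingHom (algebraMap κ M)) ≠ 1 := by
    intro h1
    have : g.natDegree = 0 := by
      rw [← hg.natDegree_map (mapRingHom (algebraMap κ M)), h1, natDegree_one]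
    rw [hg.natDegree_eq_zero] at this
    rw [this, Polynomial.map_one] at h
    exact not_irreducible_one h
  have hgM : (g.map (mapRingHom (algebraMap κ M))).map (mapRingHom (algebraMap M M')) =
      g.map (mapRingHom (algebraMap κ M')) := by
    rw [Polynomial.map_map, mapRingHom_comp, ← IsScalarTower.algebraMap_eq κ M M']
  have hgk : (g.map (mapRingHom (algebraMap κ k'))).map (mapRingHom (j : k' →+* M')) =
      g.map (mapRingHom (algebraMap κ M')) := by
    rw [Polynomial.map_map, mapRingHom_comp, j.comp_algebraMap]
  rw [irreducible_of_monic hg2 hne]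
  intro u v hu hv huv
  have huv' : u.map (mapRingHom (algebraMap M M')) * v.map (mapRingHom (algebraMap M M')) =
      g.map (mapRingHom (algebraMap κ M')) := by
    rw [← Polynomial.map_mul, huv, hgM]
  obtain ⟨u₀, hu₀⟩ := descend j g hg _ (hu.map _) (Dvd.intro _ huv')
  obtain ⟨v₀, hv₀⟩ := descend j g hg _ (hv.map _) (Dvd.intro_left _ huv')
  have huv₀ : u₀ * v₀ = g.map (mapRingHom (algebraMap κ k')) := by
    apply map_injective _ hjj
    rw [Polynomial.map_mul, hu₀, hv₀, huv', hgk]
  have hmu : u₀.Monic := by
    apply monic_of_injective hjj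
    rw [hu₀]
    exact hu.map _
  have hmv : v₀.Monic := by
    apply monic_of_injective hjj
    rw [hv₀]
    exact hv.map _
  rcases h.isUnit_or_isUnit huv₀.symm with h1 | h1
  · left
    have h2 := hmu.eq_one_of_isUnit h1
    rw [h2, Polynomial.map_one] at hu₀
    apply map_injective _ hMM
    rw [← hu₀, Polynomial.map_one]
  · right
    have h2 := hmv.eq_one_of_isUnit h1
    rw [h2, Polynomial.map_one] at hv₀
    apply map_injective _ hMM
    rw [← hv₀, Polynomial.map_one]

end Pool.Agent.Helper86.Thin.ABS
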