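import Pool.Agent.Helper55.RT.Spec
import Pool.Agent.Helper86.Thin.ABSCore

/-!
# Part ABS: absolutely irreducible polynomials remain irreducible over all extensions
-/

set_option autoImplicit false
set_option linter.all false

namespace Pool.Agent.Helper86.Thin.ABS

open Pool.Agent.Helper55.RT

theorem main : Q_ABS := by
  intro κ k' M _ _ _ _ _ _ _ g hg h
  exact core κ k' M g hg h

end Pool.Agent.Helper86.Thin.ABS
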